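import Pool.Agent.Run7.h81.RP.I

/-!
Pieces UP and LOW of the project of helper81 on MP_6b57c7_an (S04950).
-/

set_option autoImplicit false

noncomputable section

open Pool.Agent.Run7.h81.RP

namespace Run7.h173.RP

/-- the numbers `p = √(j/k)`, `q = √(1 - j/k)` -/
lemma pq_facts (k j : ℕ) (hk : 0 < k) (h1 : k ≤ 4 * j) (h2 : 4 * j ≤ 3 * k) :
    (1 / 2 ≤ Real.sqrt (j / k) ∧ 1 / 2 ≤ Real.sqrt (1 - j / k)) ∧
    (Real.sqrt (j / k) ^ 2 = j / k ∧ Real.sqrt (1 - j / k) ^ 2 = 1 - j / k) := by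
  have hk' : (0 : ℝ) < k := by exact_mod_cast hk
  have h1' : (k : ℝ) ≤ 4 * j := by exact_mod_cast h1
  have h2' : (4 : ℝ) * j ≤ 3 * k := by exact_mod_cast h2
  have ha : (1 : ℝ) / 4 ≤ j / k := by rw [le_div_iff₀ hk']; linarith
  have hb : (j : ℝ) / k ≤ 3 / 4 := by rw [div_le_iff₀ hk']; linarith
  refine ⟨⟨?_, ?_⟩, ?_, ?_⟩
  · apply Real.le_sqrt_of_sq_le; linarith
  · apply Real.le_sqrt_of_sq_le; linarith
  · exact Real.sq_sqrt (by linarith)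
  · exact Real.sq_sqrt (by linarith)

lemma le_one_of_sq {a b : ℝ} (h : a ^ 2 + b ^ 2 = 1) : a ≤ 1 := by
  linarith [sq_nonneg (a - 1), sq_nonneg b, show (a - 1) ^ 2 = a ^ 2 - 2 * a + 1 by ring]

lemma aux1 {x p : ℝ} (hx : 0 ≤ x) (hp : 0 ≤ p) (hx1 : x ≤ 1) (hp1 : p ≤ 1) :
    (x ^ 2 - p ^ 2) ^ 2 ≤ 4 * (x - p) ^ 2 := by
  have h0 : (x ^ 2 - p ^ 2) ^ 2 = (x + p) ^ 2 * (x - p) ^ 2 := by ring
  have h4 : (x + p) ^ 2 ≤ 4 := by
    have h5 : 0 ≤ x + p := by linarith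
    have h6 : x + p ≤ 2 := by linarith
    calc (x + p) ^ 2 ≤ 2 ^ 2 := pow_le_pow_left₀ h5 h6 2
      _ = 4 := by norm_num
  rw [h0]
  exact mul_le_mul_of_nonneg_right h4 (sq_nonneg _)

lemma aux2 {x p : ℝ} (hx : 1 / 2 ≤ x) (hp : 1 / 2 ≤ p) :
    (p - x) ^ 2 ≤ (x ^ 2 - p ^ 2) ^ 2 := by
  have h0 : (x ^ 2 - p ^ 2) ^ 2 = (x + p) ^ 2 * (p - x) ^ 2 := by ring
  have h4 : 1 ≤ (x + p) ^ 2 := by
    have h6 : 1 ≤ x + p := by linarith
    calc (1 : ℝ) = 1 ^ 2 := by norm_num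
      _ ≤ (x + p) ^ 2 := pow_le_pow_left₀ (by norm_num) h6 2
  rw [h0]
  calc (p - x) ^ 2 = 1 * (p - x) ^ 2 := by ring
    _ ≤ (x + p) ^ 2 * (p - x) ^ 2 := mul_le_mul_of_nonneg_right h4 (sq_nonneg _)

lemma aux3 {x p D : ℝ} (hx : 1 / 2 < x) (hp : 0 < p) (hp1 : p ≤ 1) (h : (p - x) ^ 2 ≤ D) :
    p * (p - x) ^ 2 / x ≤ 2 * D := by
  have hx0 : 0 < x := by linarith
  rw [div_le_iff₀ hx0]
  have h0 : 0 ≤ (p - x) ^ 2 := sq_nonneg _
  have h1 : p * (p - x) ^ 2 ≤ 1 * D := mul_le_mul hp1 h h0 (by norm_num)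
  have h2 : D * 1 ≤ D * (2 * x) := mul_le_mul_of_nonneg_left (by linarith) (h0.trans h)
  linarith

lemma half_lt {x : ℝ} (hx : 0 ≤ x) (h : 3 / 8 ≤ x ^ 2) : 1 / 2 < x := by
  by_contra h'
  push Not at h'
  have := pow_le_pow_left₀ hx h' 2
  norm_num at this
  linarith

theorem up : S_UP := by
  intro k j a b x y hk h1 h2 ha hb hx hy hxy
  obtain ⟨⟨hp, hq⟩, hp2, hq2⟩ := pq_facts k j hk h1 h2
  set p := Real.sqrt (j / k) with hpdef
  set q := Real.sqrt (1 - j / k) with hqdef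
  have hk' : (0 : ℝ) < k := by exact_mod_cast hk
  have hp0 : 0 < p := by linarith
  have hq0 : 0 < q := by linarith
  have hjk : j ≤ k := by omega
  have hj : (j : ℝ) = k * p ^ 2 := by rw [hp2]; field_simp
  have hkj : (k : ℝ) - j = k * q ^ 2 := by rw [hq2]; field_simp
  have hc1 : ((j - a : ℕ) : ℝ) = j - a := by push_cast [Nat.cast_sub ha]; ring
  have hc2 : ((k - j - b : ℕ) : ℝ) = k - j - b := by
    rw [Nat.cast_sub hb, Nat.cast_sub hjk]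
  have hX : 0 ≤ x / p := div_nonneg hx hp0.le
  have hY : 0 ≤ y / q := div_nonneg hy hq0.le
  have e1 : (x / p) ^ (j - a) ≤ Real.exp ((j - a) * (x / p - 1)) := by
    have : x / p ≤ Real.exp (x / p - 1) := by
      have := Real.add_one_le_exp (x / p - 1); linarith
    calc (x / p) ^ (j - a) ≤ (Real.exp (x / p - 1)) ^ (j - a) := pow_le_pow_left₀ hX this _
      _ = Real.exp ((j - a) * (x / p - 1)) := by rw [← Real.exp_nat_mul, hc1]
  have e2 : (y / q) ^ (k - j - b) ≤ Real.exp ((k - j - b) * (y / q - 1)) := by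
    have : y / q ≤ Real.exp (y / q - 1) := by
      have := Real.add_one_le_exp (y / q - 1); linarith
    calc (y / q) ^ (k - j - b) ≤ (Real.exp (y / q - 1)) ^ (k - j - b) :=
          pow_le_pow_left₀ hY this _
      _ = Real.exp ((k - j - b) * (y / q - 1)) := by rw [← Real.exp_nat_mul, hc2]
  have e3 : (x / p) ^ (j - a) * (y / q) ^ (k - j - b) ≤
      Real.exp ((j - a) * (x / p - 1) + (k - j - b) * (y / q - 1)) := by
    rw [Real.exp_add]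
    exact mul_le_mul e1 e2 (pow_nonneg hY _) (Real.exp_pos _).le
  refine e3.trans ?_
  rw [← Real.exp_add]
  apply Real.exp_le_exp.mpr
  have ha0 : (0 : ℝ) ≤ a := Nat.cast_nonneg a
  have hb0 : (0 : ℝ) ≤ b := Nat.cast_nonneg b
  have f1 : (j : ℝ) * (x / p - 1) = k * (p * x) - j := by
    have : (j : ℝ) * (x / p) = k * (p * x) := by rw [hj]; field_simp
    linarith [this]
  have f2 : ((k : ℝ) - j) * (y / q - 1) = k * (q * y) - (k - j) := by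
    have : ((k : ℝ) - j) * (y / q) = k * (q * y) := by rw [hkj]; field_simp
    linarith [this]
  have hpq : p ^ 2 + q ^ 2 = 1 := by rw [hp2, hq2]; ring
  have g1 : p * x + q * y = 1 - ((x - p) ^ 2 + (y - q) ^ 2) / 2 := by
    have : ((x - p) ^ 2 + (y - q) ^ 2) = (x ^ 2 + y ^ 2) + (p ^ 2 + q ^ 2) - 2 * (p * x + q * y) := by
      ring
    rw [this, hxy, hpq]; ring
  have hp1 : p ≤ 1 := le_one_of_sq hpq
  have hx1 : x ≤ 1 := le_one_of_sq hxy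
  have g2 : (x ^ 2 - p ^ 2) ^ 2 ≤ 4 * (x - p) ^ 2 := aux1 hx hp0.le hx1 hp1
  have g3 : -(k * x ^ 2 - j) ^ 2 / (8 * k) = - (k * (x ^ 2 - p ^ 2) ^ 2 / 8) := by
    rw [hj]; field_simp
  rw [g3]
  have g4 : (k : ℝ) * (p * x + q * y) ≤ k - k * (x ^ 2 - p ^ 2) ^ 2 / 8 := by
    rw [g1]
    have h7 : (x ^ 2 - p ^ 2) ^ 2 / 8 ≤ ((x - p) ^ 2 + (y - q) ^ 2) / 2 := by
      linarith [sq_nonneg (y - q)]
    have h8 := mul_le_mul_of_nonneg_left h7 hk'.le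
    have h9 : (k : ℝ) * (1 - ((x - p) ^ 2 + (y - q) ^ 2) / 2) =
        k - k * (((x - p) ^ 2 + (y - q) ^ 2) / 2) := by ring
    have h10 : (k : ℝ) * ((x ^ 2 - p ^ 2) ^ 2 / 8) = k * (x ^ 2 - p ^ 2) ^ 2 / 8 := by ring
    rw [h9, ← h10]
    linarith
  have g5 : (j - a : ℝ) * (x / p - 1) ≤ k * (p * x) - j + a := by
    have : (j - a : ℝ) * (x / p - 1) = (j : ℝ) * (x / p - 1) - a * (x / p) + a := by ring
    rw [this, f1]
    linarith [mul_nonneg ha0 hX]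
  have g6 : (k - j - b : ℝ) * (y / q - 1) ≤ k * (q * y) - (k - j) + b := by
    have : (k - j - b : ℝ) * (y / q - 1) = ((k : ℝ) - j) * (y / q - 1) - b * (y / q) + b := by ring
    rw [this, f2]
    linarith [mul_nonneg hb0 hY]
  linarith

theorem low : S_LOW := by
  intro k j x y hk64 h1 h2 hx hy hxy hx1 hx2 hkx
  have hk : 0 < k := by omega
  obtain ⟨⟨hp, hq⟩, hp2, hq2⟩ := pq_facts k j hk h1 h2
  set p := Real.sqrt (j / k) with hpdef
  set q := Real.sqrt (1 - j / k) with hqdef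
  have hk' : (0 : ℝ) < k := by exact_mod_cast hk
  have hp0 : 0 < p := by linarith
  have hq0 : 0 < q := by linarith
  have hjk : j ≤ k := by omega
  have hj : (j : ℝ) = k * p ^ 2 := by rw [hp2]; field_simp
  have hkj : (k : ℝ) - j = k * q ^ 2 := by rw [hq2]; field_simp
  have hpq : p ^ 2 + q ^ 2 = 1 := by rw [hp2, hq2]; ring
  have hx12 : 1 / 2 < x := half_lt hx hx1
  have hy12 : 1 / 2 < y := half_lt hy (by linarith)
  have hx0 : 0 < x := by linarith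
  have hy0 : 0 < y := by linarith
  have hX : 0 < x / p := div_pos hx0 hp0
  have hY : 0 < y / q := div_pos hy0 hq0
  have e1 : Real.exp (j * (1 - p / x)) ≤ (x / p) ^ j := by
    have : Real.exp (1 - p / x) ≤ x / p := by
      have h := Real.one_sub_inv_le_log_of_pos hX
      have h' : (x / p)⁻¹ = p / x := by rw [inv_div]
      rw [h'] at h
      calc Real.exp (1 - p / x) ≤ Real.exp (Real.log (x / p)) := Real.exp_le_exp.mpr h
        _ = x / p := Real.exp_log hX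
    calc Real.exp (j * (1 - p / x)) = (Real.exp (1 - p / x)) ^ j := by rw [← Real.exp_nat_mul]
      _ ≤ (x / p) ^ j := pow_le_pow_left₀ (Real.exp_pos _).le this _
  have e2 : Real.exp ((k - j) * (1 - q / y)) ≤ (y / q) ^ (k - j) := by
    have : Real.exp (1 - q / y) ≤ y / q := by
      have h := Real.one_sub_inv_le_log_of_pos hY
      have h' : (y / q)⁻¹ = q / y := by rw [inv_div]
      rw [h'] at h
      calc Real.exp (1 - q / y) ≤ Real.exp (Real.log (y / q)) := Real.exp_le_exp.mpr h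
        _ = y / q := Real.exp_log hY
    calc Real.exp ((k - j) * (1 - q / y)) = (Real.exp (1 - q / y)) ^ (k - j) := by
          rw [← Real.exp_nat_mul, Nat.cast_sub hjk]
      _ ≤ (y / q) ^ (k - j) := pow_le_pow_left₀ (Real.exp_pos _).le this _
  have e3 : Real.exp (j * (1 - p / x) + (k - j) * (1 - q / y)) ≤ (x / p) ^ j * (y / q) ^ (k - j) := by
    rw [Real.exp_add]
    exact mul_le_mul e1 e2 (Real.exp_pos _).le (pow_nonneg hX.le _)
  refine le_trans ?_ e3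
  apply Real.exp_le_exp.mpr
  -- the exponent
  have f1 : (j : ℝ) * (1 - p / x) = k * (p * x - p ^ 2 - p * (p - x) ^ 2 / x) + k * (p ^ 2 - p * x)
      - k * (p ^ 2 - p * x) + 0 := by
    rw [hj]; field_simp; ring
  have f2 : ((k : ℝ) - j) * (1 - q / y) = k * (q * y - q ^ 2 - q * (q - y) ^ 2 / y) := by
    rw [hkj]; field_simp; ring
  have f1' : (j : ℝ) * (1 - p / x) = k * (p * x - p ^ 2 - p * (p - x) ^ 2 / x) := by
    rw [f1]; ring
  rw [f1', f2]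
  have hp1 : p ≤ 1 := le_one_of_sq hpq
  have hq1 : q ≤ 1 := le_one_of_sq (by linarith : q ^ 2 + p ^ 2 = 1)
  have s1 : (p - x) ^ 2 ≤ (x ^ 2 - p ^ 2) ^ 2 := aux2 hx12.le hp
  have s2 : (q - y) ^ 2 ≤ (x ^ 2 - p ^ 2) ^ 2 := by
    have h7 : x ^ 2 - p ^ 2 = - (y ^ 2 - q ^ 2) := by linarith
    rw [h7, neg_sq]
    exact aux2 hy12.le hq
  have t1 : p * (p - x) ^ 2 / x ≤ 2 * (x ^ 2 - p ^ 2) ^ 2 := aux3 hx12 hp0 hp1 s1
  have t2 : q * (q - y) ^ 2 / y ≤ 2 * (x ^ 2 - p ^ 2) ^ 2 := aux3 hy12 hq0 hq1 s2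
  have t3 : p * x - p ^ 2 + (q * y - q ^ 2) = - ((p - x) ^ 2 + (q - y) ^ 2) / 2 := by
    have : (p - x) ^ 2 + (q - y) ^ 2 = (x ^ 2 + y ^ 2) + (p ^ 2 + q ^ 2) - 2 * (p * x + q * y) := by
      ring
    rw [this, hxy, hpq]
    linarith
  have t4 : (k : ℝ) * (x ^ 2 - p ^ 2) ^ 2 ≤ 1 := by
    have h0 : (k : ℝ) * ((k : ℝ) * (x ^ 2 - p ^ 2) ^ 2) = ((k : ℝ) * x ^ 2 - (j : ℝ)) ^ 2 := by
      rw [hj]; ring
    have h01 : (k : ℝ) * ((k : ℝ) * (x ^ 2 - p ^ 2) ^ 2) ≤ (k : ℝ) * 1 := by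
      rw [h0, mul_one]; exact hkx
    exact le_of_mul_le_mul_left h01 hk'
  have t5 : - (5 * (x ^ 2 - p ^ 2) ^ 2) ≤ (p * x - p ^ 2 - p * (p - x) ^ 2 / x) +
      (q * y - q ^ 2 - q * (q - y) ^ 2 / y) := by linarith
  have t6 : (k : ℝ) * (- (5 * (x ^ 2 - p ^ 2) ^ 2)) ≤ k * ((p * x - p ^ 2 - p * (p - x) ^ 2 / x) +
      (q * y - q ^ 2 - q * (q - y) ^ 2 / y)) := mul_le_mul_of_nonneg_left t5 hk'.le
  have t7 : (k : ℝ) * ((p * x - p ^ 2 - p * (p - x) ^ 2 / x) +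
      (q * y - q ^ 2 - q * (q - y) ^ 2 / y)) = k * (p * x - p ^ 2 - p * (p - x) ^ 2 / x) +
      k * (q * y - q ^ 2 - q * (q - y) ^ 2 / y) := by ring
  linarith

end Run7.h173.RP
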